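import Pool.Agent.J6H30.Gal2.Edges

/-!
# A lower bound for the number of edges of a flag homology sphere, with leading constant `4/3`

For every flag homology `(d-1)`-sphere `3 f₁ ≥ (4 d - 6) f₀ - 2 d (d - 3)`; for `d ≥ 4` this is the
inequality `γ₂ ≥ - (2 d - 3) γ₁ / 3`.  The bound `4 f₁ ≥ (5 d - 6) f₀ - 2 d (d - 2)` of
`GammaTwoBound` is weaker for all `d ≥ 7`.

Idea of the proof (it works for all flag normal pseudomanifolds, see
`Pool.Agent.J6H30.Gal2.Edges`).  The inequality is preserved by edge subdivisions and joins, so let
`W` be a prime complex without inverse edge subdivisions.  The links with few vertices are those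
with many suspension vertices or many pentagons among their join factors.  For a vertex `x` consider
the neighbours `v` of `x` for which `x` is a suspension vertex, or lies in a pentagon factor `P`, of
the link of `v` (in the second case only if `x` is not a suspension vertex of the links of its two
neighbours in `P`; at least two vertices of each pentagon have this property).  There is no edge
between the two kinds.  Adjacent neighbours of the second kind have the same pentagon or the same
complementary factor.  It follows that these neighbours lie in one join factor `C` of the link of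
`x` and that a part of them, which is closed under adjacency, does not dominate `C`, as otherwise
`W` were a join, up to one exceptional case which has a direct proof.  By the bound for vertex cuts
there are at most `|C| - 2 (rank C - 1)` of them.  Double counting gives the result.
-/

set_option autoImplicit false

namespace Pool.Agent.Results.MP_19e880_co.EdgeBoundFourThirds

open Pool.Agent.W497.FS

/-- the number of edges -/
def numEdge {n : ℕ} (S : Finset (Finset (Fin n))) : ℕ := (S.filter (fun G => G.card = 2)).card

/-- `3 f₁ ≥ (4 d - 6) f₀ - 2 d (d - 3)`, and its form `3 γ₂ ≥ - (2 d - 3) γ₁` for `d ≥ 4` -/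
theorem result (k : Type) [Field k] (n d : ℕ) (S : Finset (Finset (Fin n)))
    (hS : IsFlagSphere k d S) :
    (4 * (d : ℤ) - 6) * numVert S - 2 * d * (d - 3) ≤ 3 * numEdge S ∧
      (4 ≤ d → ∀ γ : ℕ → ℤ, IsGamma d S γ → -((2 * (d : ℤ) - 3) * γ 1) ≤ 3 * γ 2) := by
  refine ⟨Pool.Agent.J6H30.Gal2.sphere_edges hS, fun hd γ hγ => ?_⟩
  have := Pool.Agent.J6H30.Gal2.gamma_bound hS hd hγ
  linarith

end Pool.Agent.Results.MP_19e880_co.EdgeBoundFourThirds
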