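import Pool.Agent.J6H30.Gal4.Factors

/-!
# The second gamma-number of a flag homology sphere, of its induced equators, and of its join factors

Let `S` be a flag homology `(d-1)`-sphere, `d ≥ 4`, `E` an induced equator, that is, a codimension
one flag homology sphere which is an induced subcomplex, and `A`, `B` its two sides.  The cost of the
side `A`, computed with a connected subset `J` of `A`, is
`(|J| - 4) (|J| - 5)` (`0` for `|J| ≤ 5`) plus two times the sum over the vertices `w` of `A` not in
`J` of `max (0, 2 (d - 2) - e (w))`, where `e (w)` is the number of the neighbours of `w` in `E`.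

(1) If `S'` is obtained from `S` by replacing the side `A` by one vertex (for `|A| = 2` this is the
contraction of an edge) then `2 γ₂ (S') ≤ 2 γ₂ (S) + cost (A)`.

(2) `2 γ₂ (E) ≤ 2 γ₂ (S) + cost (A) + cost (B)` for `d ≥ 5`.  In particular `γ₂ (E) ≤ γ₂ (S)` if both
sides have at most five vertices, or if all vertices of the sides except five or fewer (one
connected set on each side) have at least `2 (d - 2)` neighbours in `E`.

(3) If `S = E_d ⊃ E_(d-1) ⊃ ... ⊃ E_3` is a chain of induced equators (`E_j` has dimension `j - 1`)
then `2 γ₂ (S)` is at least minus the sum of the costs of all sides.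

(4) `2 γ₂ (S) ≥ - ∑ (|C| - 3 |F_C| - 1) (|C| - 3 |F_C| - 2)`, the sum over the join factors `C` of
dimension at least three with `|C| > 3 |F_C| + 2`, for any faces `F_C` inside the factors `C`.  In
particular `γ₂ (S) ≥ 0` if every join factor of dimension `e - 1 ≥ 3` has at most `3 e + 2` vertices.

Idea of the proof (it works for all flag normal pseudomanifolds).  For a set `J` of vertices let
`Ψ (J)` be the number of the edges meeting `J` minus the number of the vertices outside `J` adjacent
to `J`.  Then `γ₂ (S) - γ₂ (E)` is the sum over the two sides `A` of `Ψ (A) - (|A| - 1) (2 d - 3)`.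
When a vertex `w` adjacent to `J` is added to `J`, then `Ψ` increases by at least `2 d - 3`, by the
bound for vertex cuts in the link of `w`, except if the neighbours of `w` in `J` dominate the link of
`w`; then `Ψ` increases by `1` plus the number of the neighbours of `w` outside `J`.  As `J` is
connected and does not dominate `S`, the bound for vertex cuts in `S` gives an upper bound for
`Ψ (J)`, which shows that there is no loss for `|J| ≤ 5`, and bounds it in general.  For (4) one
uses that in a complex which is not a join there is a vertex whose link is not a join, and that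
complexes of rank `e` which are not joins have at least `3 e - 1` vertices.
-/

set_option autoImplicit false

namespace Pool.Agent.Results.MP_19e880_co.InducedEquators

open Pool.Agent.W497.FS Pool.Agent.J6H30.Gal4

/-- The second gamma-number of a flag homology sphere, compared with the complex obtained by
replacing a side of an induced equator by a vertex (1), with an induced equator (2), with a chain of
induced equators (3), and its lower bound in terms of the join factors (4). -/
theorem result (k : Type) [Field k] (n d : ℕ) (hd : 4 ≤ d) (S : Finset (Finset (Fin n)))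
    (hS : IsFlagSphere k d S) (γ : ℕ → ℤ) (hγ : IsGamma d S γ) :
    (∀ V A B J : Finset (Fin n), ∀ a ∈ A, Equator k S (d - 1) (vert S) V A B → J ⊆ A →
      Conn S J → ∀ γ' : ℕ → ℤ, IsGamma d (collapse S V B a) γ' →
      2 * γ' 2 ≤ 2 * γ 2 + (cost S (d - 1) V A J : ℕ)) ∧
    (5 ≤ d → ∀ V A B J K : Finset (Fin n), Equator k S (d - 1) (vert S) V A B → J ⊆ A →
      Conn S J → K ⊆ B → Conn S K → ∀ γ' : ℕ → ℤ, IsGamma (d - 1) (ind S V) γ' →
      2 * γ' 2 ≤ 2 * γ 2 + (cost S (d - 1) V A J + cost S (d - 1) V B K : ℕ)) ∧
    (∀ E P Q J K : ℕ → Finset (Fin n), E d = vert S →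
      (∀ j, 3 ≤ j → j < d → Equator k S j (E (j + 1)) (E j) (P j) (Q j) ∧ J j ⊆ P j ∧
        Conn S (J j) ∧ K j ⊆ Q j ∧ Conn S (K j)) →
      -((∑ j ∈ Finset.Ico 3 d, (cost S j (E j) (P j) (J j) + cost S j (E j) (Q j) (K j)) : ℕ) : ℤ) ≤
        2 * γ 2) ∧
    (∀ F : Finset (Fin n) → Finset (Fin n), (∀ C, IsFactor S C → F C ∈ S ∧ F C ⊆ C) →
      -((∑ C ∈ bigFactors S, (C.card - 3 * (F C).card - 1) * (C.card - 3 * (F C).card - 2) : ℕ) :
        ℤ) ≤ 2 * γ 2) :=
  ⟨fun _ _ _ _ _ ha hE hJ hJc _ hγ' => sphere_collapse hS hd hE ha hJ hJc hγ hγ',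
    fun h5 _ _ _ _ _ hE hJ hJc hK hKc _ hγ' => sphere_equator hS h5 hE hJ hJc hK hKc hγ hγ',
    fun _ _ _ _ _ hE h => sphere_chain hS hd hE h hγ,
    fun _ hF => sphere_factors hS hd hγ hF⟩

end Pool.Agent.Results.MP_19e880_co.InducedEquators
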