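import Pool.Agent.J6H64.RS.Fin2
import Pool.Agent.J6H64.RS.Ex
import Pool.Agent.J6H64.RS.HS1
import Pool.Agent.J6H64.RS.HSR
import Pool.Agent.J6H64.RS.HS2
import Pool.Agent.J6H64.RS.HS3
import Pool.Agent.J6H64.RS.HS4
import Pool.Agent.J6H64.RS.HS5
import Pool.Agent.J6H64.RS.HS6
import Pool.Agent.J6H64.RS.RA
import Pool.Agent.J6H64.RS.RB
import Pool.Agent.J6H64.RS.RC
import Pool.Agent.J6H64.RS.RD
import Pool.Agent.J6H64.RS.RE

/-!
# Random edge subdivisions of flag homology spheres: Gal's conjecture holds eventually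

Let `S` be a flag homology `(d-1)`-sphere over the field `k`, `d ≥ 2` (the hypotheses `IsFlagSphere` are exactly those
of the frozen statement `S07409`). Subdivide a uniformly random edge, then a uniformly random edge of the new
complex, and so on: `K_0 = S, K_1, K_2, …` (`RandSub`; such processes exist). All `K_n` are flag homology
`(d-1)`-spheres over `k` (`IsHSph`) and have a `γ`-vector. Almost surely, whatever the starting sphere:

1. `f_m(K_n) / f_d(K_n) → C(d-1, m-1) C(d+m-2, m-1) / (m Cat_(d-1))`, where `f_m` is the number of faces with `m`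
   vertices (`f_d`: the number of facets), `1 ≤ m ≤ d`;
2. `γ_i(K_n) / f_d(K_n) → C(d-2, 2i-2) Cat_(i-1) / Cat_(d-1) > 0`, `1 ≤ i ≤ d/2`: the limit is proportional to the
   `γ`-vector of the `(d-2)`-dimensional associahedron (the `h`-polynomials converge, up to scaling, to `t` times the
   Narayana polynomial). So `γ_i(K_n) > 0` for all `1 ≤ i ≤ d/2` and all large `n`: Gal's inequalities hold strictly;
3. for all large `n` the `h`-polynomial of `K_n` has only real zeros, all of them negative.

Proof. For `e` an edge of `K` let `D_e` be the number of facets containing `e`. The subdivision changes `f_m` by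
`f_(m-1)(lk e) + f_(m-2)(lk e)`, so the average change of the face vector is a linear map `M` of the face vector
divided by the number `E` of edges; `M` is triangular with the eigenvalues `m(m-1)/2`. If `ℓ` is a left eigenvector
of eigenvalue `μ < λ = d(d-1)/2` and `F = f_d`, then with `W_n = ∏ (1 + λ/E_k)⁻¹` the processes `W_n F_n` (a
positive martingale) and `W_n ℓ(K_n)` are controlled by the weighted sum `∑_G κ^|G| D_G²` over the faces, whose average
growth rate is less than `2 λ`. So `W_n F_n` is bounded in `L²`; its limit is positive almost surely (a uniform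
conditional second moment bound and Lévy's 0–1 law), and `ℓ(K_n) / F_n → 0`. The limit of the face vectors is the
eigenvector of `M` for `λ`, which is given by Legendre polynomials; Rolle's theorem gives the real zeros.
-/

set_option autoImplicit false

namespace Pool.Agent.Results.MP_19e880_co.RandomSubdivisions

open Finset Polynomial MeasureTheory Filter Topology Pool.Agent.J6H64.RS

/-- **Random edge subdivisions of flag homology spheres.** -/
theorem result (k : Type) [Field k] (n₀ d : ℕ) (hd : 2 ≤ d) (S : Finset (Finset (Fin n₀)))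
    (hS : Pool.Agent.W497.FS.IsFlagSphere k d S) :
    -- the process exists
    (∃ (Ω : Type) (m0 : MeasurableSpace Ω) (P : Measure Ω) (_ : IsProbabilityMeasure P)
      (ℱ : Filtration ℕ m0) (K : ℕ → Ω → Finset (Finset ℕ)) (e : ℕ → Ω → Finset ℕ),
      RandSub P ℱ (S.image (fun σ => σ.map Fin.valEmbedding)) K e) ∧
    -- for all such processes:
    ∀ (Ω : Type) (m0 : MeasurableSpace Ω) (P : Measure Ω) [IsProbabilityMeasure P]
      (ℱ : Filtration ℕ m0) (K : ℕ → Ω → Finset (Finset ℕ)) (e : ℕ → Ω → Finset ℕ),
      RandSub P ℱ (S.image (fun σ => σ.map Fin.valEmbedding)) K e →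
      -- all `K_n` are flag homology spheres and have a `γ`-vector
      (∀ n ω, IsHSph k d (K n ω) ∧ ∃ γ : ℕ → ℤ, IsGam d (K n ω) γ) ∧
      ∀ᵐ ω ∂P,
        -- the limit of the face vectors
        (∀ m, 1 ≤ m → m ≤ d → Tendsto (fun n => (fn (K n ω) m : ℝ) / fn (K n ω) d) atTop
          (𝓝 (((d - 1).choose (m - 1) : ℕ) * ((d + m - 2).choose (m - 1) : ℕ) / (m : ℝ) / catalan (d - 1)))) ∧
        -- the limit of the `γ`-vectors, Gal's inequalities
        (∀ γ : ℕ → ℕ → ℤ, (∀ n, IsGam d (K n ω) (γ n)) → ∀ i, 1 ≤ i → i ≤ d / 2 →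
          Tendsto (fun n => (γ n i : ℝ) / fn (K n ω) d) atTop
            (𝓝 (((d - 2).choose (2 * i - 2) : ℕ) * (catalan (i - 1) : ℕ) / (catalan (d - 1) : ℝ))) ∧
          ∀ᶠ n in atTop, 0 < γ n i) ∧
        -- real zeros of the `h`-polynomials
        ∀ᶠ n in atTop, (hpoly d (K n ω)).Splits ∧ ∀ x : ℝ, (hpoly d (K n ω)).eval x = 0 → x < 0 :=
  final (s_ex s_sub)
    (s_hs5 (s_hs4 (s_hs2 s_hs1 (s_hsr s_hs1)) (s_hsr s_hs1) s_hs3)) s_hs6
    (s_rc (s_ra (phi_coeff s_ode) s_ode) s_rb) s_rd s_re k n₀ d hd S hS

end Pool.Agent.Results.MP_19e880_co.RandomSubdivisions
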