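import Pool.Agent.J6H64.RS.Fin4
import Pool.Agent.J6H64.RS.Ex
import Pool.Agent.J6H64.RS.HS1
import Pool.Agent.J6H64.RS.HSR
import Pool.Agent.J6H64.RS.HS2
import Pool.Agent.J6H64.RS.HS3
import Pool.Agent.J6H64.RS.HS4
import Pool.Agent.J6H64.RS.HS5
import Pool.Agent.J6H64.RS.HS6
import Pool.Agent.J6H64.RS.P1R
import Pool.Agent.J6H64.RS.P2V
import Pool.Agent.J6H64.RS.Rate
import Pool.Agent.J6H64.RS.Cox
import Pool.Agent.J6H64.RS.Omd
import Pool.Agent.J6H64.RS.Omg
import Pool.Agent.J6H64.RS.Cva
import Pool.Agent.J6H64.RS.Cvt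
import Pool.Agent.J6H64.RS.Cvr
import Pool.Agent.J6H64.RS.Cvl
import Pool.Agent.J6H64.RS.Nsc
import Pool.Agent.J6H64.RS.Ne1
import Pool.Agent.J6H64.RS.Ne2
import Pool.Agent.J6H64.RS.Ne3
import Pool.Agent.J6H64.RS.Nla
import Pool.Agent.J6H64.RS.Nlb
import Pool.Agent.J6H64.RS.Nlc
import Pool.Agent.J6H64.RS.Nld
import Pool.Agent.J6H64.RS.Nlp

/-!
# Random edge subdivisions of flag homology spheres: links, clique vectors and Coxeter weights

Let `S` be a flag homology `(d-1)`-sphere over the field `k`, `d ≥ 2`, and let `K_0 = S, K_1, K_2, …` arise by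
subdividing uniformly random edges, as in `RandomSubdivisions`. Call a complex nice (`Nice`) if it is obtained from the
boundary of a cross-polytope by edge subdivisions. Nice complexes are flag and satisfy Gal's inequalities. Almost
surely, whatever the starting sphere:

1. the links of almost all faces are nice: for `1 ≤ j ≤ d` the proportion of the faces of `K_n` with `j` elements whose
   link is nice tends to `1`, and so does the proportion of the facets all of whose nonempty faces have nice links. So
   Gal's inequalities hold for the links of almost all faces;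
2. for all large `n` the `γ`-vector of `K_n` itself is the clique vector of a finite graph (without cliques of more
   than `d/2` vertices): the conjecture of Nevo and Petersen, which implies Gal's conjecture `γ ≥ 0`, holds eventually;
3. if `d = 2m` and `0 ≤ ε < 1/d^4` then for all large `n` the Charney–Davis inequality holds for ALL weights of the
   edges of `K_n` with at most `n^ε` weights other than `2`: for every Coxeter matrix `M` on the vertices with this
   property `(-1)^m ω(K_n, M) > 0`, where `ω(K, M) = ∑_{σ ∈ K} (-1)^|σ| / |W_σ|` and `W_σ` is the Coxeter group generated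
   by the vertices of `σ`; and `ω(K_n, M) / F` tends to `(-1)^m Cat_(m-1) / (4^m Cat_(2m-1))` uniformly in `M`.

Proof. 1: call a nonempty face bad if its link is not nice. Facets are never bad, faces which are not bad stay so, and
a new face `{w} ∪ τ` (subdivision of `e` by `w`) is not bad if `τ ∪ e` was not. So the number of pairs (bad face with
`j` elements, facet containing it) grows at most at the rate `C(j, 2) + C(d-j, 2) < C(d, 2)`, the rate for the facets.
2: the limits of `γ_i(K_n) / F` are positive (`RandomSubdivisions`), and a vector of large integers in fixed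
positive proportions is the clique vector of a disjoint union of complete multipartite graphs. 3: with
`W_n = ∏ (1 + λ/E_k)⁻¹`, `λ = d(d-1)/2`, the process `W_n² ∑_G κ^|G| D_G²` decreases by a factor `1 - δ/E_n` on the
average, and `W_n F_n` has a positive limit, so the faces which contain an edge of weight other than `2` are few; in the
right-angled case `4^m ω = (-1)^m γ_m`.
-/

set_option autoImplicit false

namespace Pool.Agent.Results.MP_19e880_co.RandomSubdivisionsCliques

open Finset Polynomial MeasureTheory Filter Topology Pool.Agent.J6H64.RS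

/-- **Random edge subdivisions of flag homology spheres: links, clique vectors and Coxeter weights.** -/
theorem result :
    -- nice complexes are flag and satisfy Gal's inequalities
    (∀ (d : ℕ) (L : Finset (Finset ℕ)), Nice d L →
      Flag L ∧ (∃ γ : ℕ → ℤ, IsGam d L γ) ∧ ∀ γ : ℕ → ℤ, IsGam d L γ → ∀ i ≤ d / 2, 0 ≤ γ i) ∧
    ∀ (k : Type) [Field k] (n₀ d : ℕ) (_ : 2 ≤ d) (S : Finset (Finset (Fin n₀)))
      (_ : Pool.Agent.W497.FS.IsFlagSphere k d S),
    -- the process exists
    (∃ (Ω : Type) (m0 : MeasurableSpace Ω) (P : Measure Ω) (_ : IsProbabilityMeasure P)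
      (ℱ : Filtration ℕ m0) (K : ℕ → Ω → Finset (Finset ℕ)) (e : ℕ → Ω → Finset ℕ),
      RandSub P ℱ (S.image (fun σ => σ.map Fin.valEmbedding)) K e) ∧
    -- for all such processes:
    ∀ (Ω : Type) (m0 : MeasurableSpace Ω) (P : Measure Ω) [IsProbabilityMeasure P]
      (ℱ : Filtration ℕ m0) (K : ℕ → Ω → Finset (Finset ℕ)) (e : ℕ → Ω → Finset ℕ),
      RandSub P ℱ (S.image (fun σ => σ.map Fin.valEmbedding)) K e →
      -- all `K_n` are flag homology spheres and have a `γ`-vector
      (∀ n ω, IsHSph k d (K n ω) ∧ ∃ γ : ℕ → ℤ, IsGam d (K n ω) γ) ∧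
      ∀ᵐ ω ∂P,
        -- the links of almost all faces are nice
        ((∀ j, 1 ≤ j → j ≤ d → Tendsto (fun n => (niceFaces d (K n ω) j : ℝ) / fn (K n ω) j) atTop (𝓝 1)) ∧
          Tendsto (fun n => (niceFacets d (K n ω) : ℝ) / fn (K n ω) d) atTop (𝓝 1)) ∧
        -- the `γ`-vectors are clique vectors
        (∀ γ : ℕ → ℕ → ℤ, (∀ n, IsGam d (K n ω) (γ n)) →
          ∀ᶠ n in atTop, ∃ (N : ℕ) (G : SimpleGraph (Fin N)), ∀ i,
            (i ≤ d / 2 → (cq G i : ℤ) = γ n i) ∧ (d / 2 < i → cq G i = 0)) ∧
        -- the Charney–Davis inequality for all Coxeter weights with few exceptions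
        ∀ m, d = 2 * m → ∀ ε η : ℝ, 0 ≤ ε → ε < 1 / (d : ℝ) ^ 4 → 0 < η →
          ∀ᶠ n : ℕ in atTop, ∀ M : CoxeterMatrix ℕ, (heavy M (K n ω) : ℝ) ≤ (n : ℝ) ^ ε →
            0 < (-1) ^ m * omM M (K n ω) ∧
            |omM M (K n ω) / fn (K n ω) d - (-1) ^ m * (catalan (m - 1) / (4 ^ m * catalan (2 * m - 1)))| < η := by
  have hA : S_NLA := s_nla s_nsc s_ne1 s_ne2 s_ne3
  refine ⟨fun d L hL => ⟨(s_nlb hA d L hL).2.1, s_nlc (s_nlb hA) d L hL⟩, ?_⟩
  intro k _ n₀ d hd S hS
  exact final3 (s_ex s_sub)
    (s_hs5 (s_hs4 (s_hs2 s_hs1 (s_hsr s_hs1)) (s_hsr s_hs1) s_hs3)) s_hs6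
    (s_rate s_p1r s_p2v) (s_omd s_cox) s_omg (s_cvl (s_cvr s_cva s_cvt)) (s_nld hA) s_nlp k n₀ d hd S hS

end Pool.Agent.Results.MP_19e880_co.RandomSubdivisionsCliques
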